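import Mathlib

/-!
The curve `s ↦ (…, s ^ 64, s ^ 16, 1, s ^ 2, s ^ 3 + s ^ 4, s ^ 5)` and the forms of degree at
most three that vanish on it.
-/

set_option autoImplicit false

namespace Q37.LGP

open MvPolynomial

/-- coordinates of the curve, as polynomials in the parameter -/
noncomputable def gam (R : Type*) [CommRing R] : (m : ℕ) → Fin (m + 4) → Polynomial R
  | 0 => ![1, Polynomial.X ^ 2, Polynomial.X ^ 3 + Polynomial.X ^ 4, Polynomial.X ^ 5]
  | m + 1 => (Fin.cons (Polynomial.X ^ (16 * 4 ^ m)) (gam R m) : Fin (m + 4 + 1) → Polynomial R)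

/-- the position of the last four coordinates -/
def emb : (m : ℕ) → Fin 4 → Fin (m + 4)
  | 0 => id
  | m + 1 => fun i => ((emb m i).succ : Fin (m + 4 + 1))

theorem emb_injective (m : ℕ) : Function.Injective (emb m) := by
  induction m with
  | zero => exact fun _ _ h => h
  | succ m ih => exact fun a b h => ih (Fin.succ_injective _ h)

theorem gam_emb (R : Type*) [CommRing R] (m : ℕ) (i : Fin 4) : gam R m (emb m i) = gam R 0 i := by
  induction m with
  | zero => rfl
  | succ m ih =>
    rw [← ih]
    change (Fin.cons (Polynomial.X ^ (16 * 4 ^ m)) (gam R m) : Fin (m + 4 + 1) → Polynomial R)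
      (emb m i).succ = _
    rw [Fin.cons_succ]

theorem gam_map {R S : Type*} [CommRing R] [CommRing S] (f : R →+* S) (m : ℕ)
    (i : Fin (m + 4)) : gam S m i = (gam R m i).map f := by
  induction m with
  | zero => fin_cases i <;> simp [gam]
  | succ m ih =>
    refine Fin.cases (n := m + 4) ?_ (fun j => ?_) i
    · change (Fin.cons (Polynomial.X ^ (16 * 4 ^ m)) (gam S m) : Fin (m + 4 + 1) → Polynomial S) 0 =
        ((Fin.cons (Polynomial.X ^ (16 * 4 ^ m)) (gam R m) : Fin (m + 4 + 1) → Polynomial R) 0).map f
      rw [Fin.cons_zero, Fin.cons_zero]; simp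
    · change (Fin.cons (Polynomial.X ^ (16 * 4 ^ m)) (gam S m) : Fin (m + 4 + 1) → Polynomial S)
          j.succ =
        ((Fin.cons (Polynomial.X ^ (16 * 4 ^ m)) (gam R m) : Fin (m + 4 + 1) → Polynomial R)
          j.succ).map f
      rw [Fin.cons_succ, Fin.cons_succ]; exact ih j

theorem natDegree_gam (R : Type*) [CommRing R] (m : ℕ) (i : Fin (m + 4)) :
    (gam R m i).natDegree ≤ (16 * 4 ^ m - 1) / 3 := by
  induction m with
  | zero =>
    fin_cases i
    · change (1 : Polynomial R).natDegree ≤ _
      simp
    · change (Polynomial.X ^ 2 : Polynomial R).natDegree ≤ _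
      exact (Polynomial.natDegree_X_pow_le 2).trans (by norm_num)
    · change (Polynomial.X ^ 3 + Polynomial.X ^ 4 : Polynomial R).natDegree ≤ _
      refine (Polynomial.natDegree_add_le _ _).trans (max_le ?_ ?_)
      · exact (Polynomial.natDegree_X_pow_le 3).trans (by norm_num)
      · exact (Polynomial.natDegree_X_pow_le 4).trans (by norm_num)
    · change (Polynomial.X ^ 5 : Polynomial R).natDegree ≤ _
      exact (Polynomial.natDegree_X_pow_le 5).trans (by norm_num)
  | succ m ih =>
    have h4 : 1 ≤ 4 ^ m := Nat.one_le_pow _ _ (by norm_num)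
    refine Fin.cases (n := m + 4) ?_ (fun j => ?_) i
    · change ((Fin.cons (Polynomial.X ^ (16 * 4 ^ m)) (gam R m) :
        Fin (m + 4 + 1) → Polynomial R) 0).natDegree ≤ _
      rw [Fin.cons_zero]
      refine (Polynomial.natDegree_X_pow_le _).trans ?_
      rw [pow_succ]
      omega
    · change ((Fin.cons (Polynomial.X ^ (16 * 4 ^ m)) (gam R m) :
        Fin (m + 4 + 1) → Polynomial R) j.succ).natDegree ≤ _
      rw [Fin.cons_succ]
      refine (ih j).trans ?_
      rw [pow_succ]
      omega

section

variable {K : Type*} [Field K]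

theorem natDegree_aeval_gam (m d : ℕ) (hd : d ≤ 3) (F : MvPolynomial (Fin (m + 4)) K)
    (hF : F.IsHomogeneous d) : (aeval (gam K m) F).natDegree < 16 * 4 ^ m := by
  have h4 : 1 ≤ 4 ^ m := Nat.one_le_pow _ _ (by norm_num)
  have h1 := aeval_natDegree_le F (m := 3) (hF.totalDegree_le.trans hd) (gam K m)
    (natDegree_gam K m)
  omega

theorem aeval_cons {N : ℕ} (a : Polynomial K) (g : Fin N → Polynomial K)
    (F : MvPolynomial (Fin (N + 1)) K) :
    aeval (Fin.cons a g : Fin (N + 1) → Polynomial K) F =
      Polynomial.eval₂ ((aeval g : MvPolynomial (Fin N) K →ₐ[K] Polynomial K) :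
        MvPolynomial (Fin N) K →+* Polynomial K) a (finSuccEquiv K N F) := by
  induction F using MvPolynomial.induction_on with
  | C c =>
    rw [MvPolynomial.aeval_C]
    have : finSuccEquiv K N (C c) = Polynomial.C (C c) := by
      simp [finSuccEquiv_apply]
    rw [this, Polynomial.eval₂_C]
    simp
  | add p q hp hq => rw [map_add, map_add, Polynomial.eval₂_add, hp, hq]
  | mul_X p i hp =>
    rw [map_mul, map_mul, Polynomial.eval₂_mul, hp, aeval_X]
    congr 1
    refine Fin.cases ?_ (fun j => ?_) i
    · rw [Fin.cons_zero, finSuccEquiv_X_zero, Polynomial.eval₂_X]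
    · rw [Fin.cons_succ, finSuccEquiv_X_succ, Polynomial.eval₂_C]
      simp

/-- uniqueness of the expansion in powers of `X ^ k` -/
theorem expansion {S : Type*} [CommRing S] (f : S →+* Polynomial K) (k : ℕ)
    (P : Polynomial S) (hdeg : ∀ i, (f (P.coeff i)).natDegree < k)
    (h0 : Polynomial.eval₂ f (Polynomial.X ^ k) P = 0) (i : ℕ) : f (P.coeff i) = 0 := by
  rw [Polynomial.eval₂_eq_sum_range] at h0
  by_contra hne
  have hi : i ∈ Finset.range (P.natDegree + 1) := by
    rw [Finset.mem_range]
    by_contra hlt
    apply hne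
    rw [Polynomial.coeff_eq_zero_of_natDegree_lt (by omega), map_zero]
  apply hne
  ext j
  rw [Polynomial.coeff_zero]
  by_cases hj : j < k
  · have h1 := congrArg (fun q => Polynomial.coeff q (k * i + j)) h0
    simp only [Polynomial.finsetSum_coeff, Polynomial.coeff_zero] at h1
    rw [Finset.sum_eq_single i] at h1
    · rw [← pow_mul, Polynomial.coeff_mul_X_pow', if_pos (by omega)] at h1
      rwa [Nat.add_sub_cancel_left] at h1
    · intro l _ hl
      rw [← pow_mul, Polynomial.coeff_mul_X_pow']
      split_ifs with hle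
      · apply Polynomial.coeff_eq_zero_of_natDegree_lt
        refine (hdeg l).trans_le ?_
        have : l < i := by
          rcases lt_or_gt_of_ne hl with h | h
          · exact h
          · exfalso
            have : k * (i + 1) ≤ k * l := Nat.mul_le_mul_left k h
            rw [Nat.mul_add] at this
            omega
        have : k * (l + 1) ≤ k * i := Nat.mul_le_mul_left k this
        rw [Nat.mul_add] at this
        omega
      · rfl
    · intro h
      exact absurd hi h
  · exact Polynomial.coeff_eq_zero_of_natDegree_lt ((hdeg i).trans_le (by omega))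

end

end Q37.LGP
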