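import Pool.Agent.Q37.LGP.Curve

/-!
Forms of degree at most three that vanish on the curve.
-/

set_option autoImplicit false

namespace Q37.LGP

open MvPolynomial

section

variable {K : Type*} [Field K]

theorem homog_zero {σ : Type*} (F : MvPolynomial σ K) (h : F.IsHomogeneous 0) :
    ∃ c : K, F = C c := by
  refine ⟨coeff 0 F, ?_⟩
  have := (MvPolynomial.totalDegree_eq_zero_iff_eq_C (p := F)).1
    (Nat.le_zero.1 h.totalDegree_le)
  exact this

theorem homog_succ [CharZero K] {σ : Type*} [Fintype σ] (d : ℕ) (F : MvPolynomial σ K)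
    (h : F.IsHomogeneous (d + 1)) :
    ∃ G : σ → MvPolynomial σ K, (∀ i, (G i).IsHomogeneous d) ∧ F = ∑ i, X i * G i := by
  refine ⟨fun i => C (((d + 1 : ℕ) : K)⁻¹) * pderiv i F, fun i => ?_, ?_⟩
  · have h1 := (MvPolynomial.isHomogeneous_C σ (((d + 1 : ℕ) : K)⁻¹)).mul (h.pderiv (i := i))
    rwa [zero_add, Nat.add_sub_cancel] at h1
  · have h1 := h.sum_X_mul_pderiv
    have hne : ((d + 1 : ℕ) : K) ≠ 0 := Nat.cast_ne_zero.2 (Nat.succ_ne_zero d)
    calc F = C (((d + 1 : ℕ) : K)⁻¹) * ((d + 1) • F) := by
          rw [nsmul_eq_mul, ← mul_assoc, ← map_natCast (C : K →+* MvPolynomial σ K), ← C_mul,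
            inv_mul_cancel₀ hne, C_1, one_mul]
      _ = C (((d + 1 : ℕ) : K)⁻¹) * ∑ i, X i * pderiv i F := by rw [h1]
      _ = _ := by
          rw [Finset.mul_sum]
          exact Finset.sum_congr rfl fun i _ => by ring

theorem homog_one [CharZero K] {σ : Type*} [Fintype σ] (F : MvPolynomial σ K)
    (h : F.IsHomogeneous 1) : ∃ c : σ → K, F = ∑ i, X i * C (c i) := by
  obtain ⟨G, hG, hF⟩ := homog_succ 0 F h
  choose c hc using fun i => homog_zero (G i) (hG i)
  exact ⟨c, by rw [hF]; exact Finset.sum_congr rfl fun i _ => by rw [hc i]⟩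

theorem homog_two [CharZero K] {σ : Type*} [Fintype σ] (F : MvPolynomial σ K)
    (h : F.IsHomogeneous 2) : ∃ c : σ → σ → K, F = ∑ i, X i * ∑ j, X j * C (c i j) := by
  obtain ⟨G, hG, hF⟩ := homog_succ 1 F h
  choose c hc using fun i => homog_one (G i) (hG i)
  exact ⟨c, by rw [hF]; exact Finset.sum_congr rfl fun i _ => by rw [hc i]⟩

/-- no linear or quadratic relations between `1, s ^ 2, s ^ 3 + s ^ 4, s ^ 5` -/
theorem base_low [CharZero K] (d : ℕ) (hd : d ≤ 2) (F : MvPolynomial (Fin 4) K)
    (hF : F.IsHomogeneous d) (h0 : aeval (gam K 0) F = 0) : F = 0 := by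
  obtain rfl | rfl | rfl : d = 0 ∨ d = 1 ∨ d = 2 := by omega
  · obtain ⟨c, rfl⟩ := homog_zero F hF
    rw [aeval_C] at h0
    have : c = 0 := by
      have := congrArg (fun q => Polynomial.coeff q 0) h0
      simpa using this
    rw [this, C_0]
  · obtain ⟨c, rfl⟩ := homog_one F hF
    have h1 : (Polynomial.C (c 0) + Polynomial.X ^ 2 * Polynomial.C (c 1) +
        (Polynomial.X ^ 3 + Polynomial.X ^ 4) * Polynomial.C (c 2) +
        Polynomial.X ^ 5 * Polynomial.C (c 3) : Polynomial K) = 0 := by
      rw [← h0]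
      simp [Fin.sum_univ_four, gam]
    have e0 := congrArg (fun q => Polynomial.coeff q 0) h1
    have e2 := congrArg (fun q => Polynomial.coeff q 2) h1
    have e3 := congrArg (fun q => Polynomial.coeff q 3) h1
    have e5 := congrArg (fun q => Polynomial.coeff q 5) h1
    simp [Polynomial.coeff_X_pow, Polynomial.coeff_C] at e0 e2 e3 e5
    simp [Fin.sum_univ_four, e0, e2, e3, e5]
  · obtain ⟨c, rfl⟩ := homog_two F hF
    have h1 : (Polynomial.C (c 0 0) + Polynomial.X ^ 2 * Polynomial.C (c 0 1 + c 1 0) +
        Polynomial.X ^ 3 * Polynomial.C (c 0 2 + c 2 0) +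
        Polynomial.X ^ 4 * Polynomial.C (c 0 2 + c 2 0 + c 1 1) +
        Polynomial.X ^ 5 * Polynomial.C (c 0 3 + c 3 0 + (c 1 2 + c 2 1)) +
        Polynomial.X ^ 6 * Polynomial.C (c 1 2 + c 2 1 + c 2 2) +
        Polynomial.X ^ 7 * Polynomial.C (c 1 3 + c 3 1 + 2 * c 2 2) +
        Polynomial.X ^ 8 * Polynomial.C (c 2 2 + (c 2 3 + c 3 2)) +
        Polynomial.X ^ 9 * Polynomial.C (c 2 3 + c 3 2) +
        Polynomial.X ^ 10 * Polynomial.C (c 3 3) : Polynomial K) = 0 := by
      rw [← h0]
      simp only [Fin.sum_univ_four, gam, map_add, map_mul, aeval_X, aeval_C,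
        Matrix.cons_val, Polynomial.algebraMap_eq, map_ofNat]
      ring
    have e0 := congrArg (fun q => Polynomial.coeff q 0) h1
    have e2 := congrArg (fun q => Polynomial.coeff q 2) h1
    have e3 := congrArg (fun q => Polynomial.coeff q 3) h1
    have e4 := congrArg (fun q => Polynomial.coeff q 4) h1
    have e5 := congrArg (fun q => Polynomial.coeff q 5) h1
    have e6 := congrArg (fun q => Polynomial.coeff q 6) h1
    have e7 := congrArg (fun q => Polynomial.coeff q 7) h1
    have e8 := congrArg (fun q => Polynomial.coeff q 8) h1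
    have e9 := congrArg (fun q => Polynomial.coeff q 9) h1
    have e10 := congrArg (fun q => Polynomial.coeff q 10) h1
    simp only [Polynomial.coeff_add, Polynomial.coeff_X_pow_mul', Polynomial.coeff_C,
      Polynomial.coeff_zero] at e0 e2 e3 e4 e5 e6 e7 e8 e9 e10
    norm_num at e0 e2 e3 e4 e5 e6 e7 e8 e9 e10
    have f00 : c 0 0 = 0 := e0
    have f33 : c 3 3 = 0 := e10
    have f23 : c 3 2 = -c 2 3 := by linear_combination e9
    have f22 : c 2 2 = 0 := by linear_combination e8 - e9
    have f13 : c 3 1 = -c 1 3 := by linear_combination e7 - 2 * f22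
    have f12 : c 2 1 = -c 1 2 := by linear_combination e6 - f22
    have f03 : c 3 0 = -c 0 3 := by linear_combination e5 - f12
    have f02 : c 2 0 = -c 0 2 := by linear_combination e3
    have f11 : c 1 1 = 0 := by linear_combination e4 - f02
    have f01 : c 1 0 = -c 0 1 := by linear_combination e2
    simp only [Fin.sum_univ_four, f00, f33, f23, f22, f13, f12, f03, f02, f11, f01, map_neg,
      map_zero]
    ring

/-- a form of degree at most two that vanishes on the curve is zero -/
theorem low [CharZero K] (m : ℕ) : ∀ (d : ℕ) (_ : d ≤ 2) (F : MvPolynomial (Fin (m + 4)) K)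
    (_ : F.IsHomogeneous d) (_ : aeval (gam K m) F = 0), F = 0 := by
  induction m with
  | zero => exact base_low
  | succ m ih =>
    intro d hd F hF h0
    have hF' : MvPolynomial.IsHomogeneous (F : MvPolynomial (Fin (m + 4 + 1)) K) d := hF
    have h1 : Polynomial.eval₂ ((aeval (gam K m) : MvPolynomial (Fin (m + 4)) K →ₐ[K]
        Polynomial K) : MvPolynomial (Fin (m + 4)) K →+* Polynomial K)
        (Polynomial.X ^ (16 * 4 ^ m)) (finSuccEquiv K (m + 4) F) = 0 := by
      rw [← aeval_cons]
      exact h0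
    have hcoef : ∀ i, (d < i → (finSuccEquiv K (m + 4) F).coeff i = 0) ∧ (i ≤ d →
        ((finSuccEquiv K (m + 4) F).coeff i).IsHomogeneous (d - i)) := by
      intro i
      constructor
      · intro hi
        by_contra hne
        have h2 := totalDegree_coeff_finSuccEquiv_add_le (F : MvPolynomial (Fin (m + 4 + 1)) K) i
          hne
        have h3 := hF'.totalDegree_le
        omega
      · intro hi
        exact hF'.finSuccEquiv_coeff_isHomogeneous i (d - i) (by omega)
    have hdeg : ∀ i, (aeval (gam K m) ((finSuccEquiv K (m + 4) F).coeff i)).natDegree <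
        16 * 4 ^ m := by
      intro i
      rcases Nat.lt_or_ge d i with h | h
      · rw [(hcoef i).1 h, map_zero, Polynomial.natDegree_zero]
        positivity
      · exact natDegree_aeval_gam m (d - i) (by omega) _ ((hcoef i).2 h)
    have h2 := expansion _ (16 * 4 ^ m) _ hdeg h1
    have h3 : finSuccEquiv K (m + 4) F = 0 := by
      ext1 i
      rw [Polynomial.coeff_zero]
      rcases Nat.lt_or_ge d i with h | h
      · exact (hcoef i).1 h
      · exact ih (d - i) (by omega) _ ((hcoef i).2 h) (h2 i)
    exact (map_eq_zero_iff _ (finSuccEquiv K (m + 4)).injective).1 h3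

/-- a cubic form that vanishes on the curve only involves the last four variables -/
theorem cubic [CharZero K] (m : ℕ) : ∀ (F : MvPolynomial (Fin (m + 4)) K)
    (_ : F.IsHomogeneous 3) (_ : aeval (gam K m) F = 0),
    ∃ G : MvPolynomial (Fin 4) K, G.IsHomogeneous 3 ∧ F = rename (emb m) G := by
  induction m with
  | zero =>
    intro F hF _
    exact ⟨F, hF, by change F = rename id F; rw [rename_id]; rfl⟩
  | succ m ih =>
    intro F hF h0
    have hF' : MvPolynomial.IsHomogeneous (F : MvPolynomial (Fin (m + 4 + 1)) K) 3 := hF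
    have h1 : Polynomial.eval₂ ((aeval (gam K m) : MvPolynomial (Fin (m + 4)) K →ₐ[K]
        Polynomial K) : MvPolynomial (Fin (m + 4)) K →+* Polynomial K)
        (Polynomial.X ^ (16 * 4 ^ m)) (finSuccEquiv K (m + 4) F) = 0 := by
      rw [← aeval_cons]
      exact h0
    have hcoef : ∀ i, (3 < i → (finSuccEquiv K (m + 4) F).coeff i = 0) ∧ (i ≤ 3 →
        ((finSuccEquiv K (m + 4) F).coeff i).IsHomogeneous (3 - i)) := by
      intro i
      constructor
      · intro hi
        by_contra hne
        have h2 := totalDegree_coeff_finSuccEquiv_add_le (F : MvPolynomial (Fin (m + 4 + 1)) K) i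
          hne
        have h3 := hF'.totalDegree_le
        omega
      · intro hi
        exact hF'.finSuccEquiv_coeff_isHomogeneous i (3 - i) (by omega)
    have hdeg : ∀ i, (aeval (gam K m) ((finSuccEquiv K (m + 4) F).coeff i)).natDegree <
        16 * 4 ^ m := by
      intro i
      rcases Nat.lt_or_ge 3 i with h | h
      · rw [(hcoef i).1 h, map_zero, Polynomial.natDegree_zero]
        positivity
      · exact natDegree_aeval_gam m (3 - i) (by omega) _ ((hcoef i).2 h)
    have h2 := expansion _ (16 * 4 ^ m) _ hdeg h1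
    have h3 : ∀ i, 1 ≤ i → (finSuccEquiv K (m + 4) F).coeff i = 0 := by
      intro i hi
      rcases Nat.lt_or_ge 3 i with h | h
      · exact (hcoef i).1 h
      · exact low m (3 - i) (by omega) _ ((hcoef i).2 h) (h2 i)
    obtain ⟨G, hG, hG'⟩ := ih _ ((hcoef 0).2 (by norm_num)) (h2 0)
    refine ⟨G, hG, ?_⟩
    apply (finSuccEquiv K (m + 4)).injective
    have h4 : finSuccEquiv K (m + 4) F = Polynomial.C ((finSuccEquiv K (m + 4) F).coeff 0) := by
      ext1 i
      rcases Nat.eq_zero_or_pos i with h | h
      · rw [h, Polynomial.coeff_C_zero]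
      · rw [h3 i h, Polynomial.coeff_C_of_ne_zero (by omega)]
    have h5 : (finSuccEquiv K (m + 4)) (rename (emb (m + 1)) G) =
        Polynomial.C (rename (emb m) G) := by
      change (finSuccEquiv K (m + 4)) (rename (Fin.succ ∘ emb m) G) = _
      rw [← rename_rename]
      generalize rename (emb m) G = H
      induction H using MvPolynomial.induction_on with
      | C c => simp [finSuccEquiv_apply]
      | add p q hp hq => rw [map_add, map_add, hp, hq, map_add]
      | mul_X p i hp => rw [map_mul, map_mul, hp, rename_X, finSuccEquiv_X_succ, map_mul]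
    rw [h4, h5, hG']

end

end Q37.LGP
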