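import Pool.Agent.Q37.LGP.Forms

/-!
Any `m + 4` points of the curve with positive parameters are linearly independent
(Descartes' rule of signs).
-/

set_option autoImplicit false

namespace Q37.LGP

open Polynomial

theorem sv_add (k : ℕ) (a : ℝ) (Q : ℝ[X]) (hQ : Q.degree < k) :
    signVariations (C a * X ^ k + Q) ≤ signVariations Q + 1 := by
  by_cases ha : a = 0
  · rw [ha, C_0, zero_mul, zero_add]
    exact Nat.le_succ _
  · have h1 : (C a * X ^ k + Q).eraseLead = Q := by
      rw [eraseLead_add_of_degree_lt_left, eraseLead_C_mul_X_pow, zero_add]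
      rwa [degree_C_mul_X_pow _ ha]
    have h2 := signVariations_le_eraseLead_succ (P := C a * X ^ k + Q)
    rwa [h1] at h2

theorem sv_base (c : Fin 4 → ℝ) : signVariations (∑ i, C (c i) * gam ℝ 0 i) ≤ 3 := by
  have e : ∑ i, C (c i) * gam ℝ 0 i =
      C (c 3) * X ^ 5 + (C (c 2) * X ^ 4 + (C (c 2) * X ^ 3 + (C (c 1) * X ^ 2 + C (c 0)))) := by
    simp only [Fin.sum_univ_four, gam, Matrix.cons_val]
    ring
  rw [e]
  have d0 : (C (c 0) : ℝ[X]).degree < (2 : ℕ) :=
    degree_C_le.trans_lt (by norm_num)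
  have d1 : (C (c 1) * X ^ 2 + C (c 0) : ℝ[X]).degree < (3 : ℕ) := by
    refine (degree_add_le _ _).trans_lt (max_lt ?_ ?_)
    · exact (degree_C_mul_X_pow_le 2 _).trans_lt (by norm_num)
    · exact degree_C_le.trans_lt (by norm_num)
  have d2 : (C (c 2) * X ^ 3 + (C (c 1) * X ^ 2 + C (c 0)) : ℝ[X]).degree < (4 : ℕ) := by
    refine (degree_add_le _ _).trans_lt (max_lt ?_ ?_)
    · exact (degree_C_mul_X_pow_le 3 _).trans_lt (by norm_num)
    · exact d1.trans (by norm_num)
  have d3 : (C (c 2) * X ^ 4 + (C (c 2) * X ^ 3 + (C (c 1) * X ^ 2 + C (c 0))) : ℝ[X]).degree <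
      (5 : ℕ) := by
    refine (degree_add_le _ _).trans_lt (max_lt ?_ ?_)
    · exact (degree_C_mul_X_pow_le 4 _).trans_lt (by norm_num)
    · exact d2.trans (by norm_num)
  have s0 : signVariations (C (c 0) : ℝ[X]) = 0 := by
    rw [← monomial_zero_left]
    exact signVariations_monomial 0 _
  have s1 := sv_add 2 (c 1) (C (c 0)) d0
  have s2 := sv_add 3 (c 2) _ d1
  have s3 : signVariations (C (c 2) * X ^ 4 + (C (c 2) * X ^ 3 + (C (c 1) * X ^ 2 + C (c 0))))
      ≤ 2 := by
    by_cases h2 : c 2 = 0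
    · rw [h2] at s2 ⊢
      rw [C_0, zero_mul, zero_mul, zero_add, zero_add]
      omega
    · have l4 : (C (c 2) * X ^ 4 : ℝ[X]).degree = (4 : ℕ) := degree_C_mul_X_pow _ h2
      have l3 : (C (c 2) * X ^ 3 : ℝ[X]).degree = (3 : ℕ) := degree_C_mul_X_pow _ h2
      have h1 : (C (c 2) * X ^ 4 + (C (c 2) * X ^ 3 + (C (c 1) * X ^ 2 + C (c 0)))).eraseLead =
          C (c 2) * X ^ 3 + (C (c 1) * X ^ 2 + C (c 0)) := by
        rw [eraseLead_add_of_degree_lt_left, eraseLead_C_mul_X_pow, zero_add]
        rwa [l4]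
      have h4 : (C (c 2) * X ^ 4 + (C (c 2) * X ^ 3 + (C (c 1) * X ^ 2 + C (c 0)))).leadingCoeff =
          c 2 := by
        rw [leadingCoeff_add_of_degree_lt' (by rwa [l4]), leadingCoeff_C_mul_X_pow]
      have h3 : (C (c 2) * X ^ 3 + (C (c 1) * X ^ 2 + C (c 0))).leadingCoeff = c 2 := by
        rw [leadingCoeff_add_of_degree_lt' (by rwa [l3]), leadingCoeff_C_mul_X_pow]
      have hne : (C (c 2) * X ^ 4 + (C (c 2) * X ^ 3 + (C (c 1) * X ^ 2 + C (c 0))) : ℝ[X]) ≠ 0 := by
        intro h
        rw [h, leadingCoeff_zero] at h4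
        exact h2 h4.symm
      have h5 := signVariations_eq_eraseLead_add_ite hne
      rw [h1, h4, h3, if_neg] at h5
      · omega
      · intro h6
        exact h2 (sign_eq_zero_iff.1 (SignType.self_eq_neg_iff.1 h6))
  have s4 := sv_add 5 (c 3) _ d3
  omega

theorem degree_comb (m : ℕ) (c : Fin (m + 4) → ℝ) :
    (∑ i, C (c i) * gam ℝ m i).degree < (16 * 4 ^ m : ℕ) := by
  have h4 : 1 ≤ 4 ^ m := Nat.one_le_pow _ _ (by norm_num)
  refine (degree_sum_le _ _).trans_lt ?_
  rw [Finset.sup_lt_iff (by exact WithBot.bot_lt_coe _)]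
  intro i _
  refine degree_le_natDegree.trans_lt ?_
  have h1 := natDegree_gam ℝ m i
  have h2 := natDegree_C_mul_le (c i) (gam ℝ m i)
  exact_mod_cast (by omega : (C (c i) * gam ℝ m i).natDegree < 16 * 4 ^ m)

theorem sv_comb (m : ℕ) : ∀ c : Fin (m + 4) → ℝ,
    signVariations (∑ i, C (c i) * gam ℝ m i) ≤ m + 3 := by
  induction m with
  | zero => exact sv_base
  | succ m ih =>
    intro c
    have e : ∑ i, C (c i) * gam ℝ (m + 1) i = C (c (0 : Fin (m + 4 + 1))) * X ^ (16 * 4 ^ m) +
        ∑ i : Fin (m + 4), C (c (i.succ : Fin (m + 4 + 1))) * gam ℝ m i := by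
      change ∑ i : Fin (m + 4 + 1), C (c i) * (Fin.cons (X ^ (16 * 4 ^ m)) (gam ℝ m) :
        Fin (m + 4 + 1) → ℝ[X]) i = _
      rw [Fin.sum_univ_succ]
      simp
    rw [e]
    have h1 := sv_add (16 * 4 ^ m) (c (0 : Fin (m + 4 + 1)))
      (∑ i : Fin (m + 4), C (c (i.succ : Fin (m + 4 + 1))) * gam ℝ m i)
      (degree_comb m fun i => c (i.succ : Fin (m + 4 + 1)))
    have h2 := ih fun i => c (i.succ : Fin (m + 4 + 1))
    omega

theorem comb_ne_zero (m : ℕ) (c : Fin (m + 4) → ℝ) (hc : c ≠ 0) :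
    ∑ i, C (c i) * gam ℝ m i ≠ 0 := by
  intro h
  apply hc
  have h1 : (∑ i, MvPolynomial.X i * MvPolynomial.C (c i) : MvPolynomial (Fin (m + 4)) ℝ) = 0 := by
    apply low m 1 (by norm_num)
    · apply MvPolynomial.IsHomogeneous.sum
      intro i _
      exact (MvPolynomial.isHomogeneous_X ℝ i).mul (MvPolynomial.isHomogeneous_C _ _)
    · rw [← h]
      simp [mul_comm]
  funext i
  have h2 := congrArg (MvPolynomial.coeff (Finsupp.single i 1)) h1
  rw [MvPolynomial.coeff_sum, MvPolynomial.coeff_zero] at h2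
  have h4 : ∀ j, MvPolynomial.coeff (Finsupp.single i 1)
      (MvPolynomial.X j * MvPolynomial.C (c j) : MvPolynomial (Fin (m + 4)) ℝ) =
      if j = i then c j else 0 := by
    intro j
    rw [mul_comm, MvPolynomial.coeff_C_mul, MvPolynomial.coeff_X]
    by_cases hj : j = i
    · rw [if_pos hj, if_pos (by rw [hj]), mul_one]
    · rw [if_neg hj, if_neg, mul_zero]
      intro h3
      exact hj (Finsupp.single_left_injective one_ne_zero h3)
  simp only [h4] at h2
  rw [Finset.sum_eq_single i] at h2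
  · simpa using h2
  · intro j _ hj
    rw [if_neg hj]
  · intro h3
    exact absurd (Finset.mem_univ i) h3

/-- a nonzero linear combination of the coordinates has at most `m + 3` positive zeros -/
theorem few_zeros (m : ℕ) (c : Fin (m + 4) → ℝ) (hc : c ≠ 0) (S : Finset ℕ)
    (hpos : ∀ s ∈ S, 0 < s) (h0 : ∀ s ∈ S, (∑ i, C (c i) * gam ℝ m i).eval (s : ℝ) = 0) :
    S.card ≤ m + 3 := by
  classical
  have hne := comb_ne_zero m c hc
  refine le_trans ?_ ((roots_countP_pos_le_signVariations
    (P := ∑ i, C (c i) * gam ℝ m i)).trans (sv_comb m c))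
  rw [Multiset.countP_eq_card_filter]
  refine le_trans ?_ (Multiset.toFinset_card_le _)
  rw [← Finset.card_image_of_injective S (Nat.cast_injective (R := ℝ))]
  apply Finset.card_le_card
  intro x hx
  obtain ⟨s, hs, rfl⟩ := Finset.mem_image.1 hx
  rw [Multiset.mem_toFinset, Multiset.mem_filter]
  exact ⟨(mem_roots hne).2 (h0 s hs), Nat.cast_pos.2 (hpos s hs)⟩

/-- the points of the curve -/
noncomputable def vec (R : Type*) [CommRing R] (m : ℕ) (s : ℕ) (i : Fin (m + 4)) : R :=
  (gam R m i).eval (s : R)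

theorem vec_map {R S : Type*} [CommRing R] [CommRing S] (f : R →+* S) (m s : ℕ)
    (i : Fin (m + 4)) : vec S m s i = f (vec R m s i) := by
  rw [vec, vec, gam_map f, eval_natCast_map]

theorem det_real (m : ℕ) (s : Fin (m + 4) → ℕ) (hs : Function.Injective s)
    (hpos : ∀ i, 0 < s i) : (Matrix.of fun i j => vec ℝ m (s i) j).det ≠ 0 := by
  classical
  intro hdet
  obtain ⟨c, hc, h0⟩ := Matrix.exists_mulVec_eq_zero_iff.2 hdet
  have h1 := few_zeros m c hc (Finset.univ.image s)
    (by
      intro x hx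
      obtain ⟨i, _, rfl⟩ := Finset.mem_image.1 hx
      exact hpos i)
    (by
      intro x hx
      obtain ⟨i, _, rfl⟩ := Finset.mem_image.1 hx
      have h2 := congrFun h0 i
      rw [Matrix.mulVec, dotProduct, Pi.zero_apply] at h2
      rw [eval_finsetSum, ← h2]
      apply Finset.sum_congr rfl
      intro j _
      rw [eval_mul, eval_C, Matrix.of_apply, vec, mul_comm])
  rw [Finset.card_image_of_injective _ hs, Finset.card_univ, Fintype.card_fin] at h1
  omega

theorem det_ne (K : Type*) [Field K] [CharZero K] (m : ℕ) (s : Fin (m + 4) → ℕ)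
    (hs : Function.Injective s) (hpos : ∀ i, 0 < s i) :
    (Matrix.of fun i j => vec K m (s i) j).det ≠ 0 := by
  have hZ : (Matrix.of fun i j => vec ℤ m (s i) j).det ≠ 0 := by
    intro h
    apply det_real m s hs hpos
    have h1 : (Matrix.of fun i j => vec ℝ m (s i) j) =
        (Int.castRingHom ℝ).mapMatrix (Matrix.of fun i j => vec ℤ m (s i) j) := by
      ext i j
      rw [RingHom.mapMatrix_apply, Matrix.map_apply, Matrix.of_apply, Matrix.of_apply]
      exact vec_map (Int.castRingHom ℝ) m (s i) j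
    rw [h1, ← RingHom.map_det, h, map_zero]
  have h1 : (Matrix.of fun i j => vec K m (s i) j) =
      (Int.castRingHom K).mapMatrix (Matrix.of fun i j => vec ℤ m (s i) j) := by
    ext i j
    rw [RingHom.mapMatrix_apply, Matrix.map_apply, Matrix.of_apply, Matrix.of_apply]
    exact vec_map (Int.castRingHom K) m (s i) j
  rw [h1, ← RingHom.map_det]
  intro h2
  apply hZ
  exact (Int.cast_injective (α := K)) (by rw [Int.cast_zero]; exact h2)

/-- at most `m + 4` points of the curve with distinct positive parameters are independent -/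
theorem linearIndependent_vec (K : Type*) [Field K] [CharZero K] (m : ℕ) {ι : Type*} [Fintype ι]
    (hcard : Fintype.card ι ≤ m + 4) (s : ι → ℕ) (hs : Function.Injective s)
    (hpos : ∀ i, 0 < s i) : LinearIndependent K (fun i => vec K m (s i)) := by
  classical
  let S : Finset ℕ := Finset.univ.image s
  have hS : S.card ≤ m + 4 := by
    rw [Finset.card_image_of_injective _ hs, Finset.card_univ]
    exact hcard
  let N := S.sup id + (m + 4)
  have hsub : S ⊆ Finset.Icc 1 N := by
    intro x hx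
    rw [Finset.mem_Icc]
    constructor
    · obtain ⟨i, _, rfl⟩ := Finset.mem_image.1 hx
      exact hpos i
    · exact (Finset.le_sup (f := id) hx).trans (Nat.le_add_right _ _)
  obtain ⟨U, hSU, hUN, hU⟩ := Finset.exists_subsuperset_card_eq hsub hS
    (by rw [Nat.card_Icc]; omega)
  let e := U.equivFinOfCardEq hU
  have h1 : LinearIndependent K (fun i : Fin (m + 4) => vec K m ((e.symm i : U) : ℕ)) := by
    have := Matrix.linearIndependent_rows_of_det_ne_zero (det_ne K m
      (fun i => ((e.symm i : U) : ℕ)) (fun a b h => e.symm.injective (Subtype.ext h))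
      (fun i => (Finset.mem_Icc.1 (hUN (e.symm i).2)).1))
    exact this
  have hmem : ∀ i, s i ∈ U := fun i => hSU (Finset.mem_image_of_mem s (Finset.mem_univ i))
  have h2 := h1.comp (fun i : ι => e ⟨s i, hmem i⟩) (by
    intro a b h
    exact hs (congrArg Subtype.val (e.injective h)))
  convert h2 using 2 with i
  simp

end Q37.LGP
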