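import Mathlib

/-!
A form that vanishes to second order at a point lies in the square of the ideal of the point.
-/

set_option autoImplicit false

namespace Q37.LGP

open MvPolynomial

variable {K : Type*} [Field K]

theorem taylor {σ R : Type*} [Fintype σ] [CommRing R] [Algebra K R] (J : Ideal R) (a y : σ → R)
    (hy : ∀ i, y i ∈ J) (F : MvPolynomial σ K) :
    aeval (fun i => a i + y i) F - aeval a F - ∑ i, aeval a (pderiv i F) * y i ∈ J ^ 2 := by
  classical
  induction F using MvPolynomial.induction_on with
  | C c => simp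
  | add p q hp hq =>
    have : aeval (fun i => a i + y i) (p + q) - aeval a (p + q) -
        ∑ i, aeval a (pderiv i (p + q)) * y i =
        (aeval (fun i => a i + y i) p - aeval a p - ∑ i, aeval a (pderiv i p) * y i) +
        (aeval (fun i => a i + y i) q - aeval a q - ∑ i, aeval a (pderiv i q) * y i) := by
      simp only [map_add, add_mul, Finset.sum_add_distrib]
      ring
    rw [this]
    exact Ideal.add_mem _ hp hq
  | mul_X p j hp =>
    have h1 : ∑ i, aeval a (pderiv i (p * X j)) * y i =
        a j * ∑ i, aeval a (pderiv i p) * y i + aeval a p * y j := by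
      have h2 : ∀ i, aeval a (pderiv i (p * X j)) * y i =
          a j * (aeval a (pderiv i p) * y i) + if i = j then aeval a p * y i else 0 := by
        intro i
        rw [pderiv_mul, map_add, map_mul, map_mul, aeval_X, pderiv_X]
        by_cases h : i = j
        · rw [if_pos h, h, Pi.single_eq_same, map_one]; ring
        · rw [if_neg h, Pi.single_eq_of_ne (Ne.symm h), map_zero]; ring
      simp only [h2, Finset.sum_add_distrib, ← Finset.mul_sum]
      simp
    have h3 : (∑ i, aeval a (pderiv i p) * y i) * y j ∈ J ^ 2 := by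
      rw [pow_two]
      exact Ideal.mul_mem_mul (Ideal.sum_mem _ fun i _ => Ideal.mul_mem_left _ _ (hy i)) (hy j)
    have h4 : aeval (fun i => a i + y i) (p * X j) - aeval a (p * X j) -
        ∑ i, aeval a (pderiv i (p * X j)) * y i =
        (aeval (fun i => a i + y i) p - aeval a p - ∑ i, aeval a (pderiv i p) * y i) *
          (a j + y j) + (∑ i, aeval a (pderiv i p) * y i) * y j := by
      rw [h1, map_mul, map_mul, aeval_X, aeval_X]
      ring
    rw [h4]
    exact Ideal.add_mem _ (Ideal.mul_mem_right _ _ hp) h3

theorem aeval_scale {σ R : Type*} [Fintype σ] [CommRing R] [Algebra K R] (a : σ → K) (l : R)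
    (d : ℕ) (F : MvPolynomial σ K) (hF : F.IsHomogeneous d) :
    aeval (fun i => algebraMap K R (a i) * l) F = algebraMap K R (eval a F) * l ^ d := by
  rw [aeval_def, eval₂_eq', eval_eq', map_sum, Finset.sum_mul]
  apply Finset.sum_congr rfl
  intro m hm
  have hd : ∑ i, m i = d := by
    have := hF (mem_support_iff.1 hm)
    rw [Finsupp.weight_apply, Finsupp.sum_fintype _ _ (by simp)] at this
    simpa using this
  rw [← hd, map_mul, map_prod, ← Finset.prod_pow_eq_pow_sum, mul_assoc, ← Finset.prod_mul_distrib]
  congr 1
  apply Finset.prod_congr rfl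
  intro i _
  rw [mul_pow, map_pow]

/-- a form with vanishing value and vanishing first derivatives at `P` lies in `I ^ 2` as soon as
`I` contains the linear forms `x_i - P_i l` with `l(P) = 1` -/
theorem mem_sq {N : ℕ} (P : Fin N → K) (hP : P ≠ 0) (I : Ideal (MvPolynomial (Fin N) K))
    (hI : ∀ l : MvPolynomial (Fin N) K, l.IsHomogeneous 1 → eval P l = 0 → l ∈ I)
    (d : ℕ) (F : MvPolynomial (Fin N) K) (hF : F.IsHomogeneous d) (h0 : eval P F = 0)
    (h1 : ∀ i, eval P (pderiv i F) = 0) : F ∈ I ^ 2 := by
  obtain ⟨j, hj⟩ := Function.ne_iff.1 hP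
  have hj' : P j ≠ 0 := hj
  let l : MvPolynomial (Fin N) K := C (P j)⁻¹ * X j
  have hl : l.IsHomogeneous 1 := by
    have := (isHomogeneous_C (Fin N) (P j)⁻¹).mul (isHomogeneous_X K j)
    rwa [zero_add] at this
  have hl1 : eval P l = 1 := by
    simp [l, hj']
  let a : Fin N → MvPolynomial (Fin N) K := fun i => algebraMap K _ (P i) * l
  let y : Fin N → MvPolynomial (Fin N) K := fun i => X i - a i
  have hy : ∀ i, y i ∈ I := by
    intro i
    apply hI
    · refine (isHomogeneous_X K i).sub ?_
      have := (isHomogeneous_C (Fin N) (P i)).mul hl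
      rwa [zero_add] at this
    · simp only [y, a, map_sub, map_mul, hl1, eval_X, algebraMap_eq, eval_C, mul_one, sub_self]
  have h2 := taylor I a y hy F
  have h3 : aeval (fun i => a i + y i) F = F := by
    have : (fun i => a i + y i) = (X : Fin N → MvPolynomial (Fin N) K) := by
      funext i
      simp [y]
    rw [this, aeval_X_left, AlgHom.id_apply]
  have h4 : aeval a F = 0 := by
    rw [show a = fun i => algebraMap K _ (P i) * l from rfl, aeval_scale P l d F hF, h0, map_zero,
      zero_mul]
  have h5 : ∀ i, aeval a (pderiv i F) = 0 := by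
    intro i
    rw [show a = fun i => algebraMap K _ (P i) * l from rfl,
      aeval_scale P l (d - 1) _ hF.pderiv, h1 i, map_zero, zero_mul]
  rw [h3, h4] at h2
  simp only [h5, zero_mul, Finset.sum_const_zero, sub_zero] at h2
  exact h2

end Q37.LGP
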